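import Pool.Agent.T9h35.Sharp.ArithExp
import Pool.Agent.T9h35.NearBF.Arith

set_option autoImplicit false

/-!
# The parameters
-/

namespace Pool.Agent.T9h36.WN

open Finset Pool.Agent.T9h35.Sharp Pool.Agent.T9h35.NearBF

/-- The choice of the digits. -/
theorem sys_digit (q R : ℕ) (hq : 1 ≤ q) (hR : 1 ≤ R) :
    ∃ d s, 1 ≤ d ∧ 8 * R * (q + 1) ≤ s ^ 2 ∧ s ^ 2 ≤ 32 * R * (q + 1) ∧ s ≤ d ^ q ∧
      d ^ q ≤ 2 ^ q * s ∧ 1 ≤ s := by
  obtain ⟨a, ha⟩ : ∃ a, a = Nat.sqrt (8 * R * (q + 1)) := ⟨_, rfl⟩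
  have h1 : a * a ≤ 8 * R * (q + 1) := by
    rw [ha]
    exact Nat.sqrt_le _
  have h2 : 8 * R * (q + 1) < (a + 1) * (a + 1) := by
    rw [ha]
    exact Nat.lt_succ_sqrt _
  have h3 : 1 ≤ a := by
    rw [ha, Nat.le_sqrt]
    nlinarith
  obtain ⟨d, hd1, hd2, hd3⟩ := root_exists (a + 1) q (by omega) hq
  refine ⟨d, a + 1, hd1, by nlinarith, by nlinarith, hd2.le, hd3, by omega⟩

/-- The number of blocks. -/
theorem blocks_bound {q R κ d s : ℕ} (hκ : 1 ≤ κ) (h1 : 8 * R * (q + 1) ≤ s ^ 2)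
    (h2 : s ≤ d ^ q) :
    8 * R * ((q + 1) * d ^ 2) ≤ κ * (κ * d) ^ (q + 1) * d ^ (q + 1) := by
  calc 8 * R * ((q + 1) * d ^ 2) = 8 * R * (q + 1) * d ^ 2 := by ring
    _ ≤ (d ^ q) ^ 2 * d ^ 2 :=
        Nat.mul_le_mul_right _ (h1.trans (Nat.pow_le_pow_left h2 2))
    _ = 1 * (1 * d) ^ (q + 1) * d ^ (q + 1) := by ring
    _ ≤ κ * (κ * d) ^ (q + 1) * d ^ (q + 1) := by gcongr

/-- The number of groups. -/
theorem groups_bound {q κ d s : ℕ} (h : d ^ q ≤ 2 ^ q * s) :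
    (2 * (κ * (κ * d) ^ (q + 1))) ^ q ≤ ((2 * κ) ^ (q + 2) * s) ^ q * s := by
  calc (2 * (κ * (κ * d) ^ (q + 1))) ^ q
      = 2 ^ q * κ ^ ((q + 2) * q) * (d ^ q) ^ (q + 1) := by
        rw [mul_pow, mul_pow, mul_pow κ d, mul_pow, ← pow_mul, ← pow_mul, ← pow_mul,
          mul_comm (q + 1) q, show (q + 2) * q = q + q * (q + 1) by ring, pow_add]
        ring
    _ ≤ 2 ^ q * κ ^ ((q + 2) * q) * (2 ^ q * s) ^ (q + 1) := by gcongr
    _ = ((2 * κ) ^ (q + 2) * s) ^ q * s := by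
        rw [mul_pow, mul_pow, mul_pow, ← pow_mul, mul_pow, ← pow_mul, ← pow_mul]
        rw [show (2 : ℕ) ^ ((q + 2) * q) = 2 ^ q * 2 ^ (q * (q + 1)) by
          rw [← pow_add]; congr 1; ring]
        ring

/-- The number of transversals of one block. -/
theorem block_bound {q e κ P0 B p s : ℕ} (hq : 1 ≤ q) (hκ : κ = q * e)
    (hp : p ^ q ≤ ((2 * κ) ^ (q + 2) * s) ^ q * s) :
    P0 * (B * p) ^ κ ≤ P0 * (B * ((2 * κ) ^ (q + 2) * s)) ^ κ * s ^ e := by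
  apply (Nat.pow_le_pow_iff_left (show q ≠ 0 by omega)).1
  calc (P0 * (B * p) ^ κ) ^ q = P0 ^ q * (B ^ κ) ^ q * (p ^ q) ^ κ := by
        rw [mul_pow, mul_pow, mul_pow, ← pow_mul p, ← pow_mul p, mul_comm κ q]
        ring
    _ ≤ P0 ^ q * (B ^ κ) ^ q * (((2 * κ) ^ (q + 2) * s) ^ q * s) ^ κ := by gcongr
    _ = (P0 * (B * ((2 * κ) ^ (q + 2) * s)) ^ κ * s ^ e) ^ q := by
        obtain ⟨Z, hZ⟩ : ∃ Z, Z = (2 * κ) ^ (q + 2) * s := ⟨_, rfl⟩
        rw [← hZ]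
        have e1 : (Z ^ q * s) ^ κ = (Z ^ κ) ^ q * (s ^ e) ^ q := by
          rw [mul_pow, ← pow_mul, ← pow_mul, ← pow_mul, mul_comm q κ]
          congr 2
          rw [hκ, mul_comm]
        rw [e1, mul_pow B Z κ]
        ring

theorem exists_large_c (c q : ℕ) : ∃ K1, ∀ l : ℕ, K1 ≤ l → (c * l ^ 4) ^ q ≤ 2 ^ l := by
  have h := tendsto_pow_const_div_const_pow_of_one_lt (4 * q) (r := (2 : ℝ)) (by norm_num)
  have hpos : (0 : ℝ) < ((c : ℝ) + 1) ^ q := by positivity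
  have h2 : ∀ᶠ l : ℕ in Filter.atTop,
      (l : ℝ) ^ (4 * q) / 2 ^ l < 1 / ((c : ℝ) + 1) ^ q :=
    h.eventually_lt_const (by positivity)
  obtain ⟨K1, hK1⟩ := Filter.eventually_atTop.1 h2
  refine ⟨K1, fun l hl => ?_⟩
  have h3 := hK1 l hl
  rw [div_lt_div_iff₀ (by positivity) (by positivity), one_mul] at h3
  have h4 : ((c * l ^ 4 : ℕ) : ℝ) ^ q ≤ 2 ^ l := by
    push_cast
    calc ((c : ℝ) * (l : ℝ) ^ 4) ^ q ≤ (((c : ℝ) + 1) * (l : ℝ) ^ 4) ^ q := by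
          apply pow_le_pow_left₀ (by positivity)
          apply mul_le_mul_of_nonneg_right _ (by positivity)
          linarith
      _ = (l : ℝ) ^ (4 * q) * ((c : ℝ) + 1) ^ q := by
          rw [mul_pow, ← pow_mul, mul_comm]
      _ ≤ 2 ^ l := h3.le
  exact_mod_cast h4

theorem exp_ineq' (t M e : ℕ) (ht : 1 ≤ t) (hM : 8 * t ≤ M) :
    8 * e * M * (t + 1) * (8 * t) + (M + 1) * (64 * t * e) * (8 * t + 1) * t ≤
      64 * t * e * M * (t + 1) * (8 * t) := by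
  have h1 : (M + 1) * (8 * t) ≤ M * (8 * t + 1) := by
    calc (M + 1) * (8 * t) = M * (8 * t) + 8 * t := by ring
      _ ≤ M * (8 * t) + M := Nat.add_le_add_left hM _
      _ = M * (8 * t + 1) := by ring
  have h2 : 512 * t * (t + 1) + 64 * t * (8 * t + 1) * (8 * t + 1) ≤ 4096 * t * t * (t + 1) := by
    obtain ⟨a, rfl⟩ : ∃ a, t = a + 1 := ⟨t - 1, by omega⟩
    exact Nat.le.intro (k := 2560 * a ^ 2 + 4544 * a + 1984) (by ring)
  have h3 : 8 * (8 * e * M * (t + 1) * (8 * t) + (M + 1) * (64 * t * e) * (8 * t + 1) * t) ≤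
      8 * (64 * t * e * M * (t + 1) * (8 * t)) := by
    calc 8 * (8 * e * M * (t + 1) * (8 * t) + (M + 1) * (64 * t * e) * (8 * t + 1) * t)
        = e * (M * (512 * t * (t + 1)) + ((M + 1) * (8 * t)) * (64 * t * (8 * t + 1))) := by ring
      _ ≤ e * (M * (512 * t * (t + 1)) + (M * (8 * t + 1)) * (64 * t * (8 * t + 1))) :=
          Nat.mul_le_mul_left _ (Nat.add_le_add_left (Nat.mul_le_mul_right _ h1) _)
      _ = e * (M * (512 * t * (t + 1) + 64 * t * (8 * t + 1) * (8 * t + 1))) := by ring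
      _ ≤ e * (M * (4096 * t * t * (t + 1))) :=
          Nat.mul_le_mul_left _ (Nat.mul_le_mul_left _ h2)
      _ = 8 * (64 * t * e * M * (t + 1) * (8 * t)) := by ring
  exact Nat.le_of_mul_le_mul_left h3 (by norm_num)

/-- The bound for the binomial coefficient. -/
theorem choose_bound {n k W t : ℕ} (hW : W = n / k) (hk1 : 1 ≤ k) (hW1 : 1 ≤ W)
    (h6 : 6 ^ (8 * t) ≤ W) : (n.choose k) ^ (8 * t) ≤ W ^ (k * (8 * t + 1)) := by
  have hC : n.choose k ≤ (6 * W) ^ k := by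
    apply choose_le n k W hk1 hW1
    rw [hW, mul_comm]
    exact Nat.lt_mul_div_succ _ hk1
  calc (n.choose k) ^ (8 * t) ≤ ((6 * W) ^ k) ^ (8 * t) := Nat.pow_le_pow_left hC _
    _ = (6 ^ (8 * t)) ^ k * W ^ (k * (8 * t)) := by
        rw [mul_pow, mul_pow, ← pow_mul, ← pow_mul, ← pow_mul]
        ring_nf
    _ ≤ W ^ k * W ^ (k * (8 * t)) := Nat.mul_le_mul_right _ (Nat.pow_le_pow_left h6 _)
    _ = W ^ (k * (8 * t + 1)) := by rw [← pow_add]; ring_nf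

/-- The choice of the parameters. -/
theorem params (t : ℕ) (ht : 1 ≤ t) : ∃ K, 1 ≤ K ∧ ∀ n k e : ℕ, 1 ≤ e → K * e ≤ k →
    (K * e) ^ K ≤ n / k → 2 ≤ n / k ∧ (n.choose k) ^ t ≤ (n / k) ^ (k * (t + 1)) ∧
    ∀ R : ℕ, 1 ≤ R → R ≤ (n / k) ^ 2 →
    ∃ M m w u r D d : ℕ, 1 ≤ M ∧ 2 ≤ m ∧ 1 ≤ r ∧ k = u + M * (m + 1) ∧
      M * (m + 1) * w + u ≤ n ∧ 1 ≤ w ∧ R ≤ w ^ 2 ∧ 1 ≤ D ∧ 1 ≤ d ∧
      m ^ m * ((3 * (n / k) ^ (e + 1) + 1) * ((m + 1) * w + 1) ^ m) < 2 ^ r ∧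
      8 * R * (D * d ^ 2) ≤ (m + 1) * ((m + 1) * d) ^ D * d ^ D ∧
      ((2 * (n / k) ^ (e + 1) * w ^ 2 * ((4 * m ^ 2 * r) ^ 2 * (2 * (m + 1) *
        (2 * ((m + 1) * ((m + 1) * d) ^ D)))) ^ (m + 1)) ^ M) ^ (2 * (t + 1)) *
        (n.choose k) ^ (2 * t) ≤
        R ^ (k * (t + 1)) * ((w ^ (m + 1)) ^ M) ^ (2 * (t + 1)) := by
  obtain ⟨q, hq⟩ : ∃ q, q = 64 * t := ⟨_, rfl⟩
  obtain ⟨c, hc⟩ : ∃ c, c = (1152 * 2 ^ (q + 2)) ^ 2 * (32 * (q + 1)) * q ^ (2 * q + 22) :=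
    ⟨_, rfl⟩
  obtain ⟨K1, hK1⟩ := exists_large_c c q
  obtain ⟨K, hK⟩ : ∃ K, K = (2 * q + 22) * q + 32 * (q + 1) + K1 := ⟨_, rfl⟩
  refine ⟨K, by omega, ?_⟩
  intro n k e he1 hek hew
  obtain ⟨W, hW⟩ : ∃ W, W = n / k := ⟨_, rfl⟩
  rw [← hW] at hew ⊢
  obtain ⟨l, hl⟩ : ∃ l, l = Nat.log 2 W := ⟨_, rfl⟩
  have hq64 : 64 ≤ q := by omega
  have hqK : 32 * (q + 1) ≤ K := by omega
  have hKpos : 2 ≤ K := by omega
  have hKe : K ≤ K * e := Nat.le_mul_of_pos_right _ he1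
  have hKW : 2 ^ K ≤ W :=
    (Nat.pow_le_pow_left (hKpos.trans hKe) K).trans hew
  have hKW' : K < W := Nat.lt_two_pow_self.trans_le hKW
  have hW2' : 2 ≤ W := by omega
  have hW1 : 1 ≤ W := by omega
  have hlK : K ≤ l := by
    rw [hl]
    exact Nat.le_log_of_pow_le (by norm_num) hKW
  have hl1 : 1 ≤ l := by omega
  have hW2 : 2 ^ l ≤ W := by
    rw [hl]
    exact Nat.pow_log_le_self _ (by omega)
  have hWl : W < 2 ^ (l + 1) := by
    rw [hl]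
    exact Nat.lt_pow_succ_log_self (by norm_num) _
  have hk1 : 1 ≤ k := by omega
  have h6 : 6 ^ (8 * t) ≤ W := by
    calc 6 ^ (8 * t) ≤ 8 ^ (8 * t) := Nat.pow_le_pow_left (by norm_num) _
      _ = 2 ^ (24 * t) := by
          rw [show (8 : ℕ) = 2 ^ 3 by norm_num, ← pow_mul]
          ring_nf
      _ ≤ 2 ^ l := Nat.pow_le_pow_right (by norm_num) (by omega)
      _ ≤ W := hW2
  have hCT := choose_bound hW hk1 hW1 h6
  refine ⟨hW2', ?_, ?_⟩
  · apply (Nat.pow_le_pow_iff_left (show 8 ≠ 0 by norm_num)).1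
    calc ((n.choose k) ^ t) ^ 8 = (n.choose k) ^ (8 * t) := by rw [← pow_mul, mul_comm]
      _ ≤ W ^ (k * (8 * t + 1)) := hCT
      _ ≤ W ^ (k * (8 * (t + 1))) :=
          Nat.pow_le_pow_right hW1 (Nat.mul_le_mul_left _ (by omega))
      _ = (W ^ (k * (t + 1))) ^ 8 := by
          rw [← pow_mul]
          congr 1
          ring
  intro R hR1 hRW
  -- the number of parts of a block
  obtain ⟨κ, hκ⟩ : ∃ κ, κ = q * e := ⟨_, rfl⟩
  have hκe : 64 * e ≤ κ := by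
    rw [hκ]
    exact Nat.mul_le_mul_right _ hq64
  obtain ⟨m, hm⟩ : ∃ m, m + 1 = κ := ⟨κ - 1, by omega⟩
  have hm2 : 2 ≤ m := by omega
  have hem : e + 1 ≤ m := by omega
  obtain ⟨M, hM⟩ : ∃ M, M = k / κ := ⟨_, rfl⟩
  obtain ⟨u, hu⟩ : ∃ u, u = k % κ := ⟨_, rfl⟩
  have hkM : k = u + M * κ := by
    rw [hM, hu, add_comm, mul_comm]
    exact (Nat.div_add_mod k κ).symm
  have hku : k ≤ (M + 1) * κ := by
    have : u < κ := by rw [hu]; exact Nat.mod_lt _ (by omega)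
    rw [hkM]
    nlinarith
  have hMk : M * κ ≤ k := by omega
  have hM8 : 8 * t ≤ M := by
    rw [hM]
    apply (Nat.le_div_iff_mul_le (by omega)).2
    rw [hκ]
    calc 8 * t * (q * e) = (8 * t * q) * e := by ring
      _ ≤ K * e := by
          apply Nat.mul_le_mul_right
          have h1 : 8 * t * q ≤ (2 * q + 22) * q := Nat.mul_le_mul_right _ (by omega)
          omega
      _ ≤ k := hek
  obtain ⟨r, hr⟩ : ∃ r, r = 6 * m ^ 2 * l := ⟨_, rfl⟩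
  have hr1 : 1 ≤ r := by
    rw [hr]
    have : 0 < 6 * m ^ 2 * l := by positivity
    exact this
  obtain ⟨d, s, hd1, hs1, hs2, hs3, hs4, hs5⟩ := sys_digit q R (by omega) hR1
  refine ⟨M, m, W, u, r, q + 1, d, by omega, hm2, hr1, by rw [hm]; exact hkM, ?_, hW1, hRW,
    by omega, hd1, ?_, ?_, ?_⟩
  · rw [hm]
    calc M * κ * W + u ≤ M * κ * W + u * W :=
          Nat.add_le_add_left (Nat.le_mul_of_pos_right _ hW1) _
      _ = k * W := by rw [hkM]; ring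
      _ ≤ n := by rw [hW]; exact Nat.mul_div_le _ _
  · rw [hr]
    exact rounds m (e + 1) l W hm2 hl1 hem hWl hW1
  · rw [hm]
    exact blocks_bound (by omega) hs1 hs3
  · rw [hm]
    obtain ⟨p, hp⟩ : ∃ p, p = 2 * (κ * (κ * d) ^ (q + 1)) := ⟨_, rfl⟩
    have hpb : p ^ q ≤ ((2 * κ) ^ (q + 2) * s) ^ q * s := by
      rw [hp]
      exact groups_bound hs4
    obtain ⟨B, hB⟩ : ∃ B, B = (4 * m ^ 2 * r) ^ 2 * (2 * κ) := ⟨_, rfl⟩
    obtain ⟨Q, hQ⟩ : ∃ Q, Q = 2 * W ^ (e + 1) * W ^ 2 * (B * p) ^ κ := ⟨_, rfl⟩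
    have hQ' : 2 * W ^ (e + 1) * W ^ 2 * ((4 * m ^ 2 * r) ^ 2 * (2 * κ *
        (2 * (κ * (κ * d) ^ (q + 1))))) ^ κ = Q := by
      rw [hQ, hB, hp]
      congr 2
      ring
    rw [hQ']
    have hQ1 : Q ≤ 2 * W ^ (e + 1) * W ^ 2 * (B * ((2 * κ) ^ (q + 2) * s)) ^ κ * s ^ e := by
      rw [hQ]
      exact block_bound (by omega) hκ hpb
    obtain ⟨E, hE⟩ : ∃ E, E = (B * (2 * κ) ^ (q + 2)) ^ 2 * (32 * (q + 1)) := ⟨_, rfl⟩
    have hBle : B ≤ 1152 * κ ^ 9 * l ^ 2 := by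
      have h1 : 4 * m ^ 2 * r ≤ 24 * κ ^ 4 * l := by
        rw [hr]
        calc 4 * m ^ 2 * (6 * m ^ 2 * l) = 24 * m ^ 4 * l := by ring
          _ ≤ 24 * κ ^ 4 * l := by
              gcongr
              omega
      calc B ≤ (24 * κ ^ 4 * l) ^ 2 * (2 * κ) := by
            rw [hB]
            gcongr
        _ = 1152 * κ ^ 9 * l ^ 2 := by ring
    have hEq : E ^ q ≤ W ^ 2 := by
      have h1 : E ≤ c * l ^ 4 * e ^ (2 * q + 22) := by
        calc E ≤ (1152 * κ ^ 9 * l ^ 2 * (2 * κ) ^ (q + 2)) ^ 2 * (32 * (q + 1)) := by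
              rw [hE]
              gcongr
          _ = (1152 * 2 ^ (q + 2)) ^ 2 * (32 * (q + 1)) * l ^ 4 * κ ^ (2 * q + 22) := by
              rw [mul_pow 2 κ (q + 2)]
              ring
          _ = c * l ^ 4 * e ^ (2 * q + 22) := by
              rw [hκ, hc, mul_pow q e]
              ring
      calc E ^ q ≤ (c * l ^ 4 * e ^ (2 * q + 22)) ^ q := Nat.pow_le_pow_left h1 _
        _ = (c * l ^ 4) ^ q * e ^ ((2 * q + 22) * q) := by rw [mul_pow, ← pow_mul]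
        _ ≤ W * W := by
            apply Nat.mul_le_mul ((hK1 l (by omega)).trans hW2)
            calc e ^ ((2 * q + 22) * q) ≤ e ^ K := Nat.pow_le_pow_right he1 (by omega)
              _ ≤ (K * e) ^ K :=
                  Nat.pow_le_pow_left (Nat.le_mul_of_pos_left _ (by omega)) _
              _ ≤ W := hew
        _ = W ^ 2 := by ring
    have hs2e : (s ^ 2) ^ e ≤ W ^ (3 * e) := by
      rw [pow_mul]
      apply Nat.pow_le_pow_left
      calc s ^ 2 ≤ 32 * R * (q + 1) := hs2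
        _ = 32 * (q + 1) * R := by ring
        _ ≤ W * W ^ 2 := Nat.mul_le_mul (by omega) hRW
        _ = W ^ 3 := by ring
    have hQ2 : Q ^ 2 ≤ W ^ (16 * e) * R ^ κ := by
      have h1 : 2 * W ^ (e + 1) * W ^ 2 ≤ W ^ (e + 4) := by
        calc 2 * W ^ (e + 1) * W ^ 2 ≤ W * W ^ (e + 1) * W ^ 2 := by gcongr
          _ = W ^ (e + 4) := by ring
      calc Q ^ 2 ≤ (2 * W ^ (e + 1) * W ^ 2 * (B * ((2 * κ) ^ (q + 2) * s)) ^ κ * s ^ e) ^ 2 :=
            Nat.pow_le_pow_left hQ1 2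
        _ ≤ (W ^ (e + 4) * (B * ((2 * κ) ^ (q + 2) * s)) ^ κ * s ^ e) ^ 2 := by gcongr
        _ = W ^ (2 * e + 8) * ((B * (2 * κ) ^ (q + 2)) ^ 2) ^ κ * (s ^ 2) ^ κ * (s ^ 2) ^ e := by
            rw [← mul_assoc B]
            obtain ⟨Z, hZ⟩ : ∃ Z, Z = B * (2 * κ) ^ (q + 2) := ⟨_, rfl⟩
            rw [← hZ, mul_pow Z s κ]
            ring
        _ ≤ W ^ (2 * e + 8) * ((B * (2 * κ) ^ (q + 2)) ^ 2) ^ κ * (32 * R * (q + 1)) ^ κ *
              W ^ (3 * e) := by gcongr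
        _ = W ^ (2 * e + 8) * (E ^ q) ^ e * W ^ (3 * e) * R ^ κ := by
            have e1 : 32 * R * (q + 1) = 32 * (q + 1) * R := by ring
            have e2 : (E ^ q) ^ e = ((B * (2 * κ) ^ (q + 2)) ^ 2) ^ κ * (32 * (q + 1)) ^ κ := by
              rw [← pow_mul, ← hκ, hE, mul_pow]
            rw [e1, e2, mul_pow (32 * (q + 1)) R κ]
            ring
        _ ≤ W ^ (2 * e + 8) * (W ^ 2) ^ e * W ^ (3 * e) * R ^ κ := by gcongr
        _ = W ^ (7 * e + 8) * R ^ κ := by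
            rw [← pow_mul, ← pow_add, ← pow_add]
            congr 2
            ring
        _ ≤ W ^ (16 * e) * R ^ κ :=
            Nat.mul_le_mul_right _ (Nat.pow_le_pow_right hW1 (by omega))
    -- the exponents
    have hfin : W ^ (8 * e * M * (t + 1)) * (n.choose k) ^ t ≤ W ^ (κ * M * (t + 1)) := by
      apply (Nat.pow_le_pow_iff_left (show 8 * t ≠ 0 by omega)).1
      have hexp := exp_ineq' t M e ht hM8
      rw [← hq] at hexp
      calc (W ^ (8 * e * M * (t + 1)) * (n.choose k) ^ t) ^ (8 * t)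
          = W ^ (8 * e * M * (t + 1) * (8 * t)) * ((n.choose k) ^ (8 * t)) ^ t := by
            rw [mul_pow, ← pow_mul, ← pow_mul, ← pow_mul, mul_comm t (8 * t)]
        _ ≤ W ^ (8 * e * M * (t + 1) * (8 * t)) * (W ^ (k * (8 * t + 1))) ^ t := by gcongr
        _ = W ^ (8 * e * M * (t + 1) * (8 * t) + k * (8 * t + 1) * t) := by
            rw [← pow_mul, ← pow_add]
        _ ≤ W ^ (q * e * M * (t + 1) * (8 * t)) := by
            apply Nat.pow_le_pow_right hW1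
            refine le_trans ?_ hexp
            apply Nat.add_le_add_left
            apply Nat.mul_le_mul_right
            apply Nat.mul_le_mul_right
            rw [← hκ]
            exact hku
        _ = (W ^ (κ * M * (t + 1))) ^ (8 * t) := by
            rw [← pow_mul, hκ]
    calc (Q ^ M) ^ (2 * (t + 1)) * (n.choose k) ^ (2 * t)
        = (Q ^ 2) ^ (M * (t + 1)) * ((n.choose k) ^ t) ^ 2 := by
          rw [← pow_mul, ← pow_mul, ← pow_mul]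
          congr 2 <;> ring
      _ ≤ (W ^ (16 * e) * R ^ κ) ^ (M * (t + 1)) * ((n.choose k) ^ t) ^ 2 := by gcongr
      _ = (W ^ (8 * e * M * (t + 1)) * (n.choose k) ^ t) ^ 2 * R ^ (M * κ * (t + 1)) := by
          have e3 : (W ^ (8 * e * M * (t + 1))) ^ 2 = W ^ (16 * e * (M * (t + 1))) := by
            rw [← pow_mul]
            congr 1
            ring
          have e4 : κ * (M * (t + 1)) = M * κ * (t + 1) := by ring
          rw [mul_pow, mul_pow (W ^ (8 * e * M * (t + 1))), e3, ← pow_mul, ← pow_mul, e4]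
          ring
      _ ≤ (W ^ (κ * M * (t + 1))) ^ 2 * R ^ (k * (t + 1)) := by gcongr
      _ = R ^ (k * (t + 1)) * ((W ^ κ) ^ M) ^ (2 * (t + 1)) := by
          rw [← pow_mul, ← pow_mul, ← pow_mul, mul_comm]
          congr 2
          ring

end Pool.Agent.T9h36.WN
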