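import Pool.Agent.T9h36.WN.Embed
import Pool.Agent.T9h36.WN.Params

set_option autoImplicit false

/-!
# Witness bits and NOT gates: the theorem, from the theorem on one block
-/

namespace Pool.Agent.T9h36.WN

open Finset Pool.Agent.T9h34 Pool.Agent.T9h16 Pool.Agent.T9h35.Sharp Pool.Agent.T9h35.NearBF
open scoped Classical

/-- The theorem on one block. -/
def SingleBlock : Prop :=
  ∀ (I Λ : Type) [Fintype I] (m w p R N r : ℕ), Sys I (m + 1) p → ∀ C : Circuit Λ,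
    8 * R ≤ Fintype.card I → 2 ≤ m → 1 ≤ r → 1 ≤ R → 1 ≤ w → C.size + C.numReads + 1 ≤ N →
    m ^ m * ((3 * N + 1) * ((m + 1) * w + 1) ^ m) < 2 ^ r →
    Single C m w R (2 * N * w ^ 2 * ((4 * m ^ 2 * r) ^ 2 * (2 * (m + 1) * p)) ^ (m + 1))

theorem main_nat (hSB : SingleBlock) (t : ℕ) (ht : 1 ≤ t) : ∃ K, 1 ≤ K ∧ ∀ n k e : ℕ, 1 ≤ e →
    K * e ≤ k → (K * e) ^ K ≤ n / k → ∀ C : Circuit (Pair n),
    C.size + C.numReads ≤ (n / k) ^ e →
    (∀ G : SimpleGraph (Fin n), C.eval (edgeValues G) = true → HasClique k G) →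
    ∀ R : ℕ, 1 ≤ R → ¬ HasChain C k R →
    (univ.filter fun S : Finset (Fin n) => S.card = k ∧ Finds C S).card ^ (2 * (t + 1)) ≤
      R ^ (k * (t + 1)) * (n.choose k) ^ 2 := by
  obtain ⟨K, hK1, hK⟩ := params t ht
  refine ⟨K, hK1, fun n k e he hek hew C hC hs R hR hno => ?_⟩
  obtain ⟨hW2, hCt, hpar⟩ := hK n k e he hek hew
  obtain ⟨F, hF⟩ : ∃ F, F = (univ.filter fun S : Finset (Fin n) => S.card = k ∧
      Finds C S).card := ⟨_, rfl⟩
  rw [← hF]
  obtain ⟨N, hN⟩ : ∃ N, N = n.choose k := ⟨_, rfl⟩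
  obtain ⟨W, hW⟩ : ∃ W, W = n / k := ⟨_, rfl⟩
  rw [← hN] at hCt ⊢
  rw [← hW] at hCt hW2 hpar hC
  by_cases hRW : R ≤ W ^ 2
  · obtain ⟨M, m, w, u, r, D, d, hM, hm, hr, hk, hn, hw, hRw, hD, hd, hrounds, hblocks,
      hfin⟩ := hpar R hR hRW
    obtain ⟨I, _, ⟨σ⟩, hI⟩ := exists_sys D d (m + 1) hD hd (by omega)
    have hI8 : 8 * R ≤ Fintype.card I := by
      have h1 : 8 * R * (D * d ^ 2) ≤ Fintype.card I * (D * d ^ 2) := hblocks.trans hI
      exact Nat.le_of_mul_le_mul_right h1 (Nat.mul_pos (by omega) (Nat.pow_pos (by omega)))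
    have hsize : C.size + C.numReads + 1 ≤ W ^ (e + 1) := by
      have h1 : 1 ≤ W ^ e := Nat.one_le_pow _ _ (by omega)
      calc C.size + C.numReads + 1 ≤ W ^ e * 2 := by omega
        _ ≤ W ^ (e + 1) := by
            rw [pow_succ]
            exact Nat.mul_le_mul_left _ hW2
    obtain ⟨Q, hQ⟩ : ∃ Q, Q = 2 * W ^ (e + 1) * w ^ 2 * ((4 * m ^ 2 * r) ^ 2 * (2 * (m + 1) *
        (2 * ((m + 1) * ((m + 1) * d) ^ D)))) ^ (m + 1) := ⟨_, rfl⟩
    have hS : Single C m w R Q := by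
      rw [hQ]
      exact hSB I (Pair n) m w _ R _ r σ C hI8 hm hr hR hw hsize hrounds
    rw [← hQ, ← hN] at hfin
    have h1 := few_found n k M m w u R Q hM hm hk hn C hs hS hno
    rw [← hF, ← hN] at h1
    obtain ⟨P, hP⟩ : ∃ P, P = (w ^ (m + 1)) ^ M := ⟨_, rfl⟩
    rw [← hP] at h1 hfin
    have hP0 : 0 < P := by
      rw [hP]
      positivity
    have h2 : F ^ (2 * (t + 1)) * P ^ (2 * (t + 1)) ≤
        R ^ (k * (t + 1)) * N ^ 2 * P ^ (2 * (t + 1)) := by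
      calc F ^ (2 * (t + 1)) * P ^ (2 * (t + 1)) = (F * P) ^ (2 * (t + 1)) := by rw [mul_pow]
        _ ≤ (Q ^ M * N) ^ (2 * (t + 1)) := Nat.pow_le_pow_left h1 _
        _ = (Q ^ M) ^ (2 * (t + 1)) * N ^ (2 * t) * N ^ 2 := by
            rw [mul_pow, mul_assoc, ← pow_add]
            congr 2
        _ ≤ R ^ (k * (t + 1)) * P ^ (2 * (t + 1)) * N ^ 2 := Nat.mul_le_mul_right _ hfin
        _ = R ^ (k * (t + 1)) * N ^ 2 * P ^ (2 * (t + 1)) := by ring
    exact Nat.le_of_mul_le_mul_right h2 (Nat.pow_pos hP0)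
  · rw [not_le] at hRW
    have hFN : F ≤ N := by
      rw [hF, hN]
      calc (univ.filter fun S : Finset (Fin n) => S.card = k ∧ Finds C S).card
          ≤ (powersetCard k (univ : Finset (Fin n))).card := by
            apply card_le_card
            intro S hS
            rw [mem_filter] at hS
            rw [mem_powersetCard]
            exact ⟨subset_univ _, hS.2.1⟩
        _ = n.choose k := by rw [card_powersetCard, card_univ, Fintype.card_fin]
    calc F ^ (2 * (t + 1)) ≤ N ^ (2 * (t + 1)) := Nat.pow_le_pow_left hFN _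
      _ = (N ^ t) ^ 2 * N ^ 2 := by
          rw [← pow_mul, ← pow_add]
          congr 1
          ring
      _ ≤ (W ^ (k * (t + 1))) ^ 2 * N ^ 2 :=
          Nat.mul_le_mul_right _ (Nat.pow_le_pow_left hCt 2)
      _ = (W ^ 2) ^ (k * (t + 1)) * N ^ 2 := by
          rw [← pow_mul, ← pow_mul, mul_comm 2]
      _ ≤ R ^ (k * (t + 1)) * N ^ 2 :=
          Nat.mul_le_mul_right _ (Nat.pow_le_pow_left hRW.le _)

/-- The largest number of changes. -/
theorem exists_max {n : ℕ} (C : Circuit (Pair n)) {k : ℕ} (hk : 2 ≤ k) :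
    ∃ m, HasChain C k m ∧ ¬ HasChain C k (m + 1) ∧
      m + 1 ≤ (C.gates.map fun g => g.args.length + 1).prod := by
  have hbound : ∀ R, HasChain C k R → R + 1 ≤ (C.gates.map fun g => g.args.length + 1).prod := by
    rintro R ⟨G, h1, -, h3⟩
    apply changes_le C (fun i => edgeValues (G i)) _ _ h3
    intro i e he
    simp only [edgeValues, decide_eq_true_eq] at he ⊢
    exact h1 i he
  have h0 : HasChain C k 0 :=
    ⟨fun _ => ⊥, fun _ => le_rfl, fun _ => not_hasClique_bot hk, fun i hi => absurd hi (by omega)⟩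
  have hex : ∃ R, ¬ HasChain C k R := by
    by_contra hcon
    push Not at hcon
    have := hbound _ (hcon ((C.gates.map fun g => g.args.length + 1).prod))
    omega
  obtain ⟨R, hR1, hR2⟩ : ∃ R, ¬ HasChain C k R ∧ ∀ R' < R, HasChain C k R' :=
    ⟨Nat.find hex, Nat.find_spec hex, fun R' h => not_not.1 (Nat.find_min hex h)⟩
  have hR0 : R ≠ 0 := by
    rintro rfl
    exact hR1 h0
  obtain ⟨m, rfl⟩ : ∃ m, R = m + 1 := ⟨R - 1, by omega⟩
  exact ⟨m, hR2 m (by omega), hR1, hbound _ (hR2 m (by omega))⟩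

theorem real_step {F R N t k : ℕ} {ε : ℝ} (hε : 0 < ε) (ht : 1 / ε < t) (hN : 1 ≤ N)
    (h : F ^ (2 * (t + 1)) ≤ R ^ (k * (t + 1)) * N ^ 2) :
    (F : ℝ) ≤ (R : ℝ) ^ ((k : ℝ) / 2) * (N : ℝ) ^ ε := by
  have hN1 : (1 : ℝ) ≤ N := by exact_mod_cast hN
  have h1 : (F : ℝ) ^ (2 * (t + 1)) ≤ (R : ℝ) ^ (k * (t + 1)) * (N : ℝ) ^ 2 := by
    exact_mod_cast h
  have h2 : ((R : ℝ) ^ ((k : ℝ) / 2) * (N : ℝ) ^ ε) ^ (2 * (t + 1)) ≥
      (R : ℝ) ^ (k * (t + 1)) * (N : ℝ) ^ 2 := by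
    rw [mul_pow, ← Real.rpow_natCast, ← Real.rpow_natCast ((N : ℝ) ^ ε),
      ← Real.rpow_mul (Nat.cast_nonneg _), ← Real.rpow_mul (Nat.cast_nonneg _)]
    have e1 : (k : ℝ) / 2 * ((2 * (t + 1) : ℕ) : ℝ) = ((k * (t + 1) : ℕ) : ℝ) := by
      push_cast
      ring
    rw [e1, Real.rpow_natCast]
    apply mul_le_mul_of_nonneg_left _ (by positivity)
    rw [← Real.rpow_natCast (N : ℝ) 2]
    apply Real.rpow_le_rpow_of_exponent_le hN1
    rw [div_lt_iff₀ hε] at ht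
    push_cast
    nlinarith
  exact le_of_pow_le_pow_left₀ (by omega) (by positivity) (h1.trans h2)

/-- The theorem. -/
theorem main_real (hSB : SingleBlock) (ε : ℝ) (hε : 0 < ε) : ∃ K : ℕ, 0 < K ∧
    ∀ (U : Type) [Fintype U] (n k e : ℕ) (D : U → Circuit (Pair n)),
    0 < e → K * e ≤ k → (K * e) ^ K ≤ n / k →
    (∀ u, (D u).size + (D u).numReads ≤ (n / k) ^ e) →
    (∀ u (G : SimpleGraph (Fin n)), (D u).eval (edgeValues G) = true → HasClique k G) →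
    ∃ (m : U → ℕ) (G : U → ℕ → SimpleGraph (Fin n)),
      (∀ u i, G u i ≤ G u (i + 1)) ∧ (∀ u i, ¬ HasClique k (G u i)) ∧
      (∀ u, ∀ i < m u, (D u).reads (edgeValues (G u i)) ≠
        (D u).reads (edgeValues (G u (i + 1)))) ∧
      (∀ u, m u + 1 ≤ ((D u).gates.map fun g => g.args.length + 1).prod) ∧
      ({S : Finset (Fin n) | S.card = k ∧ ∃ u, Finds (D u) S}.ncard : ℝ) ≤
        (∑ u, ((m u + 1 : ℕ) : ℝ) ^ ((k : ℝ) / 2)) * (n.choose k : ℝ) ^ ε := by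
  obtain ⟨t, ht⟩ := exists_nat_gt (1 / ε)
  have ht0 : (0 : ℝ) < t := lt_trans (by positivity) ht
  have ht1 : 1 ≤ t := by exact_mod_cast ht0
  obtain ⟨K, hK1, hK⟩ := main_nat hSB t ht1
  refine ⟨K + 1, by omega, fun U _ n k e D he hek hew hD hcl => ?_⟩
  have hek' : K * e ≤ k := by nlinarith
  have hew' : (K * e) ^ K ≤ n / k := by
    refine le_trans ?_ hew
    calc (K * e) ^ K ≤ ((K + 1) * e) ^ K :=
          Nat.pow_le_pow_left (Nat.mul_le_mul_right _ (by omega)) _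
      _ ≤ ((K + 1) * e) ^ (K + 1) := by
          apply Nat.pow_le_pow_right (Nat.mul_pos (by omega) he) (by omega)
  have hk2 : 2 ≤ k := by nlinarith
  have hW : 1 ≤ n / k := by
    refine le_trans ?_ hew'
    exact Nat.one_le_pow _ _ (Nat.mul_pos hK1 he)
  have hkn : k ≤ n := by
    by_contra hcon
    rw [Nat.div_eq_of_lt (by omega)] at hW
    omega
  have hmax := fun u => exists_max (D u) hk2
  choose m hm1 hm2 hm3 using hmax
  choose G hG1 hG2 hG3 using hm1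
  refine ⟨m, G, hG1, hG2, hG3, hm3, ?_⟩
  obtain ⟨F, hF⟩ : ∃ F : U → Finset (Finset (Fin n)), ∀ a, F a =
      univ.filter fun S : Finset (Fin n) => S.card = k ∧ Finds (D a) S :=
    ⟨_, fun _ => rfl⟩
  have h1 : ∀ a, ((F a).card : ℝ) ≤
      ((m a + 1 : ℕ) : ℝ) ^ ((k : ℝ) / 2) * ((n.choose k : ℕ) : ℝ) ^ ε := by
    intro a
    have h2 := hK n k e he hek' hew' (D a) (hD a) (hcl a) (m a + 1) (by omega) (hm2 a)
    rw [← hF] at h2
    exact real_step hε ht (Nat.choose_pos hkn) h2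
  have h2 : {S : Finset (Fin n) | S.card = k ∧ ∃ a, Finds (D a) S} ⊆
      (((univ : Finset U).biUnion F : Finset (Finset (Fin n))) : Set (Finset (Fin n))) := by
    rintro S ⟨hS, a, ha⟩
    rw [mem_coe, mem_biUnion]
    refine ⟨a, mem_univ _, ?_⟩
    rw [hF, mem_filter]
    exact ⟨mem_univ _, hS, ha⟩
  have h3 := Set.ncard_le_ncard h2 (Finset.finite_toSet _)
  rw [Set.ncard_coe_finset] at h3
  calc (({S : Finset (Fin n) | S.card = k ∧ ∃ a, Finds (D a) S}.ncard : ℕ) : ℝ)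
      ≤ ((∑ a : U, (F a).card : ℕ) : ℝ) := by
        exact_mod_cast h3.trans card_biUnion_le
    _ = ∑ a : U, ((F a).card : ℝ) := by push_cast; rfl
    _ ≤ ∑ a : U, ((m a + 1 : ℕ) : ℝ) ^ ((k : ℝ) / 2) * ((n.choose k : ℕ) : ℝ) ^ ε :=
        sum_le_sum fun a _ => h1 a
    _ = (∑ u, ((m u + 1 : ℕ) : ℝ) ^ ((k : ℝ) / 2)) * (n.choose k : ℝ) ^ ε := by
        rw [sum_mul]

end Pool.Agent.T9h36.WN
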