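import Pool.Agent.T9h35.NearBF.Main
import Pool.Agent.T9h35.Sharp.Main

set_option autoImplicit false

/-!
# The cliques found by one circuit
-/

namespace Pool.Agent.T9h36.WN

open Finset Pool.Agent.T9h34 Pool.Agent.T9h16 Pool.Agent.T9h35.Sharp Pool.Agent.T9h35.NearBF
open scoped Classical

/-- The circuit finds the set `S`: it accepts all graphs in which `S` is a clique. -/
def Finds {n : ℕ} (C : Circuit (Pair n)) (S : Finset (Fin n)) : Prop :=
  ∀ G : SimpleGraph (Fin n), G.IsClique (S : Set (Fin n)) → C.eval (edgeValues G) = true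

/-- There is a chain of graphs without cliques of size `k` such that the values read by the
further gates change in the first `R` steps. -/
def HasChain {n : ℕ} (C : Circuit (Pair n)) (k R : ℕ) : Prop :=
  ∃ G : ℕ → SimpleGraph (Fin n), (∀ i, G i ≤ G (i + 1)) ∧ (∀ i, ¬ HasClique k (G i)) ∧
    ∀ i < R, C.reads (edgeValues (G i)) ≠ C.reads (edgeValues (G (i + 1)))

/-- The property of one block: if the circuit finds more than `Q` transversals, then the values
read by the further gates change `R` times along a chain. -/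
def Single {Λ : Type} (C : Circuit Λ) (m w R Q : ℕ) : Prop :=
  ∀ X : Set (EE (m + 1) w) → Λ → Bool, (∀ a, Leaf (fun z => X z a = true)) →
    (∀ z, C.eval (X z) = true → TK z) → ∀ F : Finset (Fin (m + 1) → Fin w),
    (∀ φ ∈ F, ∀ z, posG φ ⊆ z → C.eval (X z) = true) → Q < F.card →
    ∃ Y : ℕ → Set (EE (m + 1) w), (∀ i, Y i ⊆ Y (i + 1)) ∧ (∀ i, ¬ TK (Y i)) ∧
      ∀ i < R, C.reads (X (Y i)) ≠ C.reads (X (Y (i + 1)))

/-- The transversal cliques of the blocks that are found. -/
theorem core_embed (n k M m w u R Q : ℕ) (hM : 1 ≤ M) (hm : 2 ≤ m)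
    (hk : k = u + M * (m + 1)) (ι : PVer M (m + 1) w u ↪ Fin n) (C : Circuit (Pair n))
    (hs : ∀ G : SimpleGraph (Fin n), C.eval (edgeValues G) = true → HasClique k G)
    (hS : Single C m w R Q) (hno : ¬ HasChain C k R) :
    (univ.filter fun Φ : Fin M → Fin (m + 1) → Fin w =>
      Finds C ((tset (u := u) Φ).map ι)).card ≤ Q ^ M := by
  have hk2 : 2 ≤ k := by
    have : 1 * (m + 1) ≤ M * (m + 1) := Nat.mul_le_mul_right _ hM
    omega
  obtain ⟨G, hG⟩ : ∃ G : (Fin M → Set (EE (m + 1) w)) → SimpleGraph (Fin n),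
      ∀ y, G y = (PG (u := u) y).map ι := ⟨_, fun _ => rfl⟩
  have hGm : ∀ y y', (∀ i, y i ⊆ y' i) → G y ≤ G y' := by
    intro y y' h
    rw [hG, hG]
    exact SimpleGraph.map_monotone ι (PG_mono h)
  have hGl : ∀ a b : Fin n, (∃ t : Prop, ∀ y, (G y).Adj a b ↔ t) ∨
      (∃ i e, ∀ y, (G y).Adj a b ↔ e ∈ y i) := by
    intro a b
    simp only [hG]
    by_cases ha : ∃ u', ι u' = a
    · by_cases hb : ∃ v', ι v' = b
      · obtain ⟨a', rfl⟩ := ha
        obtain ⟨b', rfl⟩ := hb
        simp only [SimpleGraph.map_adj_apply]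
        exact PG_leaf a' b'
      · left
        refine ⟨False, fun y => ?_⟩
        simp only [SimpleGraph.map_adj, iff_false, not_exists, not_and]
        rintro u' v' _ _ h
        exact hb ⟨v', h⟩
    · left
      refine ⟨False, fun y => ?_⟩
      simp only [SimpleGraph.map_adj, iff_false, not_exists, not_and]
      rintro u' v' _ h _
      exact ha ⟨u', h⟩
  have hGc : ∀ y, HasClique k (G y) → ∀ i, ∃ φ : Fin (m + 1) → Fin w, posG φ ⊆ y i := by
    intro y h1
    unfold HasClique at h1
    rw [hG, clique_map _ ι k hk2, hk, PG_clique] at h1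
    exact h1
  -- the transversals found in one block, the other blocks being full
  obtain ⟨Γ, hΓ⟩ : ∃ Γ : Fin M → Set (EE (m + 1) w) → SimpleGraph (Fin n),
      ∀ i z, Γ i z = G (Function.update (fun _ => Set.univ) i z) := ⟨_, fun _ _ => rfl⟩
  obtain ⟨A, hA⟩ : ∃ A : Fin M → Finset (Fin (m + 1) → Fin w), ∀ i, A i =
      univ.filter fun φ => ∀ z, posG φ ⊆ z → C.eval (edgeValues (Γ i z)) = true :=
    ⟨_, fun _ => rfl⟩
  have hTK : ∀ i z, HasClique k (Γ i z) → TK z := by
    intro i z h
    rw [hΓ] at h
    obtain ⟨φ, hφ⟩ := hGc _ h i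
    rw [Function.update_self] at hφ
    exact ⟨φ, hφ⟩
  have hAc : ∀ i, (A i).card ≤ Q := by
    intro i
    by_contra hcon
    rw [not_le] at hcon
    obtain ⟨Y, hY1, hY2, hY3⟩ := hS (fun z => edgeValues (Γ i z)) (by
        intro e
        simp only [edgeValues, decide_eq_true_eq]
        rcases hGl e.1.1 e.1.2 with ⟨t, ht⟩ | ⟨i', e', he⟩
        · refine Or.inr ⟨t, fun z => ?_⟩
          change (Γ i z).Adj _ _ ↔ _
          rw [hΓ, ht]
        · by_cases hii : i' = i
          · refine Or.inl ⟨e', fun z => ?_⟩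
            change (Γ i z).Adj _ _ ↔ _
            rw [hΓ, he, hii, Function.update_self]
          · refine Or.inr ⟨True, fun z => ?_⟩
            change (Γ i z).Adj _ _ ↔ _
            rw [hΓ, he, Function.update_of_ne hii]
            exact iff_of_true (Set.mem_univ _) trivial)
      (fun z hz => hTK i z (hs _ hz)) (A i) (by
        intro φ hφ
        rw [hA, mem_filter] at hφ
        exact hφ.2) hcon
    refine hno ⟨fun j => Γ i (Y j), fun j => ?_, fun j h => hY2 j (hTK i _ h), hY3⟩
    change Γ i (Y j) ≤ Γ i (Y (j + 1))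
    rw [hΓ, hΓ]
    apply hGm
    intro i'
    by_cases hii : i' = i
    · subst hii
      rw [Function.update_self, Function.update_self]
      exact hY1 j
    · rw [Function.update_of_ne hii, Function.update_of_ne hii]
  have hcover : (univ.filter fun Φ : Fin M → Fin (m + 1) → Fin w =>
      Finds C ((tset (u := u) Φ).map ι)) ⊆ Fintype.piFinset A := by
    intro Φ hΦ
    rw [mem_filter] at hΦ
    rw [Fintype.mem_piFinset]
    intro i
    rw [hA, mem_filter]
    refine ⟨mem_univ _, fun z hz => hΦ.2 _ ?_⟩
    rw [hΓ, hG, coe_map]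
    have h1 : (PG (u := u) fun i => posG (Φ i)) ≤
        PG (u := u) (Function.update (fun _ => Set.univ) i z) := by
      apply PG_mono
      intro i'
      by_cases hii : i' = i
      · subst hii
        rw [Function.update_self]
        exact hz
      · rw [Function.update_of_ne hii]
        exact Set.subset_univ _
    exact ((tset_clique Φ).mono h1).map
  refine (card_le_card hcover).trans ?_
  rw [Fintype.card_piFinset]
  refine (prod_le_pow_card _ _ _ fun i _ => hAc i).trans ?_
  rw [card_univ, Fintype.card_fin]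

/-- A small sound circuit finds few cliques. -/
theorem few_found (n k M m w u R Q : ℕ) (hM : 1 ≤ M) (hm : 2 ≤ m)
    (hk : k = u + M * (m + 1)) (hn : M * (m + 1) * w + u ≤ n) (C : Circuit (Pair n))
    (hs : ∀ G : SimpleGraph (Fin n), C.eval (edgeValues G) = true → HasClique k G)
    (hS : Single C m w R Q) (hno : ¬ HasChain C k R) :
    (univ.filter fun S : Finset (Fin n) => S.card = k ∧ Finds C S).card *
        (w ^ (m + 1)) ^ M ≤ Q ^ M * n.choose k := by
  have hcard : Fintype.card (PVer M (m + 1) w u) ≤ Fintype.card (Fin n) := by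
    simp only [Fintype.card_sum, Fintype.card_prod, Fintype.card_fin]
    exact hn
  obtain ⟨ι⟩ := Function.Embedding.nonempty_of_card_le hcard
  obtain ⟨F, hF⟩ : ∃ F, F = univ.filter fun S : Finset (Fin n) => S.card = k ∧ Finds C S :=
    ⟨_, rfl⟩
  rw [← hF]
  have hav := averaging (k := k) F (by
      intro S hS
      rw [hF, mem_filter] at hS
      exact hS.2.1)
    (fun Φ : Fin M → Fin (m + 1) → Fin w => (tset (u := u) Φ).map ι)
    (by
      intro Φ
      rw [card_map, tset_card, hk])
    (Q ^ M) (by
      intro π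
      refine (card_le_card ?_).trans
        (core_embed n k M m w u R Q hM hm hk (ι.trans π.toEmbedding) C hs hS hno)
      intro Φ hΦ
      rw [mem_filter, hF, mem_filter] at hΦ
      rw [mem_filter]
      refine ⟨mem_univ _, ?_⟩
      have h := hΦ.2.2.2
      rw [map_map] at h
      exact h)
  rw [Fintype.card_fun, Fintype.card_fun, Fintype.card_fin, Fintype.card_fin,
    Fintype.card_fin] at hav
  exact hav

end Pool.Agent.T9h36.WN
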