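import Pool.Agent.T9h34.N.Single
import Pool.Agent.T9h36.WN.Main

set_option autoImplicit false

/-!
# Witness bits and NOT gates: the theorem
-/

namespace Pool.Agent.T9h36.WN

open Finset Pool.Agent.T9h34 Pool.Agent.T9h16 Pool.Agent.T9h35.Sharp Pool.Agent.T9h35.NearBF
open scoped Classical

theorem singleBlock : SingleBlock := by
  intro I Λ _ m w p R N r σ C hI hm _ _ _ hs h1 X leaf sound F found h2
  exact Pool.Agent.T9h34.N.single hm r N R σ hI C hs h1 X leaf sound F found h2

end Pool.Agent.T9h36.WN
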